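import Mathlib
import Pool.Agent.Lib.MP_f5c99b_lc.Core

/-! In every model `(M, ∈)` of the first-order theory `ZF`, every strongly zero-dimensional
realcompact space is `ℕ`-compact.  By the completeness theorem this says that the statement is a
theorem of `ZF`. -/

namespace Pool.Agent.Results.MP_f5c99b_lc.TheoremOfZF

open Pool.Agent.Lib.MP_f5c99b_lc

universe u

theorem result (M : Type u) [Membership M M] (hM : IsModelOfZF M) (K : RealField M) (X T : M)
    (hT : IsTopology X T) (hR : IsRealcompact K X T) (hZ : IsStronglyZeroDim K X T) :
    IsNCompact X T := by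
  have : Fact (IsModelOfZF M) := ⟨hM⟩
  exact main hT hR hZ

end Pool.Agent.Results.MP_f5c99b_lc.TheoremOfZF
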